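import Pool.Agent.Lib.helper24.Sparse

set_option autoImplicit false

namespace Pool.Agent.Results.MP_7e65d6_nt.Separate

open Pool.Agent.Lib.helper24.Sparse Finset Filter

/-- `R` meets `A - A` for every `A ⊆ E` of positive upper density relative to `E`. -/
def Intersective (E R : Set ℕ) : Prop :=
  ∀ A ⊆ E, 0 < relUpper E A → ∃ r ∈ R, ∃ a ∈ A, ∃ a' ∈ A, (r : ℤ) = (a : ℤ) - a'

theorem thick {R : Set ℕ} (h : ∀ l, ∃ b, ∀ r, b < r → r ≤ b + l → r ∈ R) :
    Intersective {n | 1 ≤ n} R := by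
  classical
  intro A _ hA
  by_contra hc
  push Not at hc
  choose β hβ using h
  obtain ⟨f, f1⟩ : ∃ f : ℕ → ℕ, ∀ k, f (k + 1) = β (f k + 1) + f k + 1 :=
    ⟨fun k => Nat.rec 0 (fun _ n => β (n + 1) + n + 1) k, fun _ => rfl⟩
  have f2 : Monotone f := monotone_nat_of_le_succ fun k => by rw [f1]; omega
  have f3 : ∀ i j, i < j → ∀ x ∈ A, ∀ y ∈ A, x + f i ≠ y + f j := fun i j hij x hx y hy e => by
    obtain ⟨j, rfl⟩ : ∃ k, j = k + 1 := ⟨j - 1, by omega⟩
    have := f2 (show i ≤ j by omega)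
    have := f1 j
    exact hc (f (j + 1) - f i) (hβ (f j + 1) _ (by omega) (by omega)) x hx y hy (by omega)
  obtain ⟨δ, d1, d2⟩ := exists_between hA
  have d3 := frequently_lt_of_lt_limsup
    (isCoboundedUnder_le_of_le atTop (x := 0) fun n => by positivity) d2
  obtain ⟨m, hm⟩ := exists_nat_gt (2 / δ)
  obtain ⟨N, n1, n2⟩ := (d3.and_eventually (eventually_ge_atTop (f m + 1))).exists
  have c1 : cnt {n | 1 ≤ n} 1 (N + 1) = N := by
    refine (congrArg card (?_ : _ = Ico 1 (N + 1))).trans (by simp)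
    ext x
    simp only [mem_filter, mem_Ico, Set.mem_ofPred_eq]
    omega
  obtain ⟨B, hB⟩ : ∃ B, B = (Ico 1 (N + 1)).filter (· ∈ A ∩ {n | 1 ≤ n}) := ⟨_, rfl⟩
  have B1 : ∀ x ∈ B, x ∈ A ∧ x ≤ N := fun x hx => by
    rw [hB, mem_filter, mem_Ico] at hx
    exact ⟨hx.2.1, by omega⟩
  have c2 : (range m ×ˢ B).card ≤ (range (2 * N)).card := by
    refine card_le_card_of_injOn (fun p => p.2 + f p.1) (fun p hp => ?_) fun p hp q hq e => ?_
    · obtain ⟨h1, h2⟩ := mem_product.mp hp
      have := f2 (mem_range.mp h1).le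
      have := (B1 _ h2).2
      simp only [coe_range, Set.mem_Iio]
      omega
    · have h1 := (B1 _ (mem_product.mp hp).2).1
      have h2 := (B1 _ (mem_product.mp hq).2).1
      rcases lt_trichotomy p.1 q.1 with h | h | h
      · exact absurd e (f3 _ _ h _ h1 _ h2)
      · refine Prod.ext h ?_
        simp only [h] at e
        omega
      · exact absurd e.symm (f3 _ _ h _ h2 _ h1)
  have c3 : cnt (A ∩ {n | 1 ≤ n}) 1 (N + 1) = B.card := by
    refine congrArg card ?_
    ext x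
    simp only [hB, mem_filter]
  have c4 : (0 : ℝ) < N := by
    have : 0 < N := by omega
    exact_mod_cast this
  rw [c1, c3, lt_div_iff₀ c4] at n1
  rw [card_product, card_range, card_range] at c2
  have c5 := (Nat.cast_le (α := ℝ)).mpr c2
  push_cast at c5
  rw [div_lt_iff₀ d1] at hm
  have : (0 : ℝ) ≤ m := by positivity
  nlinarith

/-- For every infinite set `E` of upper Banach density zero some intersective set is not
`E`-intersective. -/
theorem result (E : Set ℕ) (_h0 : 0 ∉ E) (hE : E.Infinite) (h : upperBanach E = 0) :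
    ∃ R : Set ℕ, 0 ∉ R ∧ Intersective {n | 1 ≤ n} R ∧ ¬ Intersective E R := by
  obtain ⟨A, h1, h2, R, h3, h4, h5⟩ := main hE h
  refine ⟨R, h4, thick h3, fun hc => ?_⟩
  obtain ⟨r, hr, a, ha, a', ha', e⟩ := hc A h1 h2
  refine h5 a' ha' r hr ?_
  rwa [show a' + r = a by omega]

end Pool.Agent.Results.MP_7e65d6_nt.Separate
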